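import Mathlib
import Pool.Agent.Q176.MetricAnalog

/-!
# Metric analogs versus quasimetrizability (MP_d44cd8_gt)

(a) fails: the closed upper half plane in which the points of the line have the cones
`{|u - x| < v < ε}` as neighbourhoods is a developable `T₀` (even Hausdorff) space, hence has a
metric analog, but it is not quasimetrizable.  (b) holds.
-/

namespace Pool.Agent.Results.MP_d44cd8_gt.MetricAnalogVsQuasimetric

open Set Topology Filter Q176.MetricAnalog

universe u v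

/-- the closed upper half plane -/
def P : Type := {p : ℝ × ℝ // 0 ≤ p.2}

/-- neighbourhoods of the points of the boundary line -/
def C (x ε : ℝ) : Set P := {p | p.1 = (x, 0) ∨ (|p.1.1 - x| < p.1.2 ∧ p.1.2 < ε)}

/-- neighbourhoods of the other points -/
def D (p : ℝ × ℝ) (ε : ℝ) : Set P := {q | 0 < q.1.2 ∧ dist q.1 p < ε}

instance : TopologicalSpace P where
  IsOpen U := ∀ p ∈ U, (p.1.2 = 0 → ∃ ε > 0, C p.1.1 ε ⊆ U) ∧ (0 < p.1.2 → ∃ ε > 0, D p.1 ε ⊆ U)
  isOpen_univ := fun _ _ => ⟨fun _ => ⟨1, one_pos, subset_univ _⟩,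
    fun _ => ⟨1, one_pos, subset_univ _⟩⟩
  isOpen_inter := by
    rintro U V hU hV p ⟨hpU, hpV⟩
    refine ⟨fun h => ?_, fun h => ?_⟩
    · obtain ⟨ε, hε, h1⟩ := (hU p hpU).1 h
      obtain ⟨δ, hδ, h2⟩ := (hV p hpV).1 h
      refine ⟨min ε δ, lt_min hε hδ, fun q hq => ⟨h1 ?_, h2 ?_⟩⟩
      · exact hq.imp id fun h => ⟨h.1, h.2.trans_le (min_le_left _ _)⟩
      · exact hq.imp id fun h => ⟨h.1, h.2.trans_le (min_le_right _ _)⟩
    · obtain ⟨ε, hε, h1⟩ := (hU p hpU).2 h
      obtain ⟨δ, hδ, h2⟩ := (hV p hpV).2 h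
      refine ⟨min ε δ, lt_min hε hδ, fun q hq => ⟨h1 ?_, h2 ?_⟩⟩
      · exact ⟨hq.1, hq.2.trans_le (min_le_left _ _)⟩
      · exact ⟨hq.1, hq.2.trans_le (min_le_right _ _)⟩
  isOpen_sUnion := by
    rintro 𝒮 h𝒮 p ⟨U, hU, hp⟩
    refine ⟨fun h => ?_, fun h => ?_⟩
    · obtain ⟨ε, hε, h1⟩ := (h𝒮 U hU p hp).1 h
      exact ⟨ε, hε, h1.trans (subset_sUnion_of_mem hU)⟩
    · obtain ⟨ε, hε, h1⟩ := (h𝒮 U hU p hp).2 h
      exact ⟨ε, hε, h1.trans (subset_sUnion_of_mem hU)⟩

theorem isOpen_iff (U : Set P) : IsOpen U ↔ ∀ p ∈ U,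
    (p.1.2 = 0 → ∃ ε > 0, C p.1.1 ε ⊆ U) ∧ (0 < p.1.2 → ∃ ε > 0, D p.1 ε ⊆ U) := Iff.rfl

/-- a set all of whose points are off the line and which is Euclidean open is open -/
theorem isOpen_of_euclid {U : Set P} (O : Set (ℝ × ℝ)) (hO : IsOpen O)
    (hU : ∀ p ∈ U, 0 < p.1.2 → p.1 ∈ O) (hU' : ∀ p : P, 0 < p.1.2 → p.1 ∈ O → p ∈ U)
    (hline : ∀ p ∈ U, p.1.2 = 0 → ∃ ε > 0, C p.1.1 ε ⊆ U) : IsOpen U := by
  rw [isOpen_iff]
  intro p hp
  refine ⟨hline p hp, fun h => ?_⟩
  obtain ⟨ε, hε, hsub⟩ := Metric.isOpen_iff.1 hO p.1 (hU p hp h)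
  exact ⟨ε, hε, fun q hq => hU' q hq.1 (hsub hq.2)⟩

theorem isOpen_D (p : ℝ × ℝ) (ε : ℝ) : IsOpen (D p ε) := by
  refine isOpen_of_euclid (Metric.ball p ε) Metric.isOpen_ball (fun q hq _ => hq.2)
    (fun q h hq => ⟨h, hq⟩) ?_
  intro q hq h
  exact absurd h hq.1.ne'

theorem isOpen_C (x : ℝ) {ε : ℝ} (hε : 0 < ε) : IsOpen (C x ε) := by
  refine isOpen_of_euclid {w | |w.1 - x| < w.2 ∧ w.2 < ε} ?_ ?_ ?_ ?_
  · exact (isOpen_lt ((continuous_fst.sub continuous_const).abs) continuous_snd).inter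
      (isOpen_lt continuous_snd continuous_const)
  · rintro p (hp | hp) h
    · rw [hp] at h
      exact absurd h (lt_irrefl _)
    · exact hp
  · intro p _ hp
    exact Or.inr hp
  · rintro p (hp | hp) h
    · refine ⟨ε, hε, ?_⟩
      have : p.1.1 = x := by rw [hp]
      rw [this]
    · rw [h] at hp
      exact absurd hp.1 (not_lt.2 (abs_nonneg _))

/-- the point `(x, 0)` -/
def pt (x : ℝ) : P := ⟨(x, 0), le_rfl⟩

theorem pt_mem_C (x ε : ℝ) : pt x ∈ C x ε := Or.inl rfl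

theorem pt_mem_C_iff {x y ε : ℝ} : pt y ∈ C x ε ↔ y = x := by
  constructor
  · rintro (h | h)
    · exact congrArg Prod.fst h
    · exact absurd h.1 (not_lt.2 (abs_nonneg _))
  · rintro rfl
    exact pt_mem_C _ _

theorem eq_pt {p : P} (h : p.1.2 = 0) : p = pt p.1.1 := Subtype.ext (Prod.ext rfl h)

theorem mem_D_self (p : P) (hp : 0 < p.1.2) {ε : ℝ} (hε : 0 < ε) : p ∈ D p.1 ε :=
  ⟨hp, by rw [dist_self]; exact hε⟩

theorem pos_of_ne {p : P} (h : ¬ p.1.2 = 0) : 0 < p.1.2 := lt_of_le_of_ne p.2 (Ne.symm h)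

instance : T0Space P := by
  refine ⟨fun p q hpq => ?_⟩
  by_contra hne
  have key : ∀ p q : P, Inseparable p q → p ≠ q → ¬ 0 < p.1.2 := by
    intro p q hpq hne hp
    have hd : 0 < dist q.1 p.1 := dist_pos.2 fun h => hne (Subtype.ext h.symm)
    have h1 : q ∈ D p.1 (dist q.1 p.1) := (hpq.mem_open_iff (isOpen_D _ _)).1 (mem_D_self p hp hd)
    exact lt_irrefl _ h1.2
  have hp : p.1.2 = 0 := by
    by_contra h
    exact key p q hpq hne (pos_of_ne h)
  have hq : q.1.2 = 0 := by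
    by_contra h
    exact key q p hpq.symm (Ne.symm hne) (pos_of_ne h)
  have h1 : q ∈ C p.1.1 1 := by
    apply (hpq.mem_open_iff (isOpen_C _ one_pos)).1
    have : p = pt p.1.1 := eq_pt hp
    rw [this]
    exact pt_mem_C _ _
  rw [eq_pt hq] at h1
  rw [pt_mem_C_iff] at h1
  exact hne ((eq_pt hp).trans ((congrArg pt h1.symm).trans (eq_pt hq).symm))

/-- the development -/
noncomputable def G (k : ℕ) (i : P) : Set P := by
  classical
  exact if i.1.2 = 0 then C i.1.1 (1 / ((k : ℝ) + 1)) else D i.1 (1 / ((k : ℝ) + 1))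

theorem G_line (k : ℕ) {i : P} (h : i.1.2 = 0) : G k i = C i.1.1 (1 / ((k : ℝ) + 1)) := by
  classical
  exact if_pos h

theorem G_off (k : ℕ) {i : P} (h : ¬ i.1.2 = 0) : G k i = D i.1 (1 / ((k : ℝ) + 1)) := by
  classical
  exact if_neg h

theorem isOpen_G (k : ℕ) (i : P) : IsOpen (G k i) := by
  by_cases h : i.1.2 = 0
  · rw [G_line k h]
    exact isOpen_C _ (by positivity)
  · rw [G_off k h]
    exact isOpen_D _ _

theorem mem_G_self (k : ℕ) (i : P) : i ∈ G k i := by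
  by_cases h : i.1.2 = 0
  · rw [G_line k h]
    exact Or.inl (Prod.ext rfl h)
  · rw [G_off k h]
    exact mem_D_self i (pos_of_ne h) (by positivity)

theorem G_dev (p : P) (U : Set P) (hU : IsOpen U) (hp : p ∈ U) :
    ∃ k, ∀ i, p ∈ G k i → G k i ⊆ U := by
  by_cases h : p.1.2 = 0
  · obtain ⟨ε, hε, hsub⟩ := ((isOpen_iff U).1 hU p hp).1 h
    obtain ⟨k, hk⟩ := exists_nat_one_div_lt hε
    refine ⟨k, fun i hi => ?_⟩
    by_cases hi0 : i.1.2 = 0
    · rw [G_line k hi0] at hi ⊢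
      rw [eq_pt h, pt_mem_C_iff] at hi
      rw [← hi]
      refine subset_trans ?_ hsub
      intro q hq
      exact hq.imp id fun h => ⟨h.1, h.2.trans hk⟩
    · rw [G_off k hi0] at hi
      exact absurd h hi.1.ne'
  · have hpos := pos_of_ne h
    obtain ⟨ε, hε, hsub⟩ := ((isOpen_iff U).1 hU p hp).2 hpos
    obtain ⟨k, hk⟩ := exists_nat_one_div_lt (lt_min (half_pos hε) hpos)
    have hk1 : 1 / ((k : ℝ) + 1) < ε / 2 := hk.trans_le (min_le_left _ _)
    have hk2 : 1 / ((k : ℝ) + 1) < p.1.2 := hk.trans_le (min_le_right _ _)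
    refine ⟨k, fun i hi => ?_⟩
    by_cases hi0 : i.1.2 = 0
    · rw [G_line k hi0] at hi
      rcases hi with hi | hi
      · rw [hi] at h
        exact absurd rfl h
      · exact absurd hi.2 (not_lt.2 hk2.le)
    · rw [G_off k hi0] at hi ⊢
      refine subset_trans ?_ hsub
      intro q hq
      refine ⟨hq.1, ?_⟩
      calc dist q.1 p.1 ≤ dist q.1 i.1 + dist p.1 i.1 := dist_triangle_right _ _ _
        _ < ε := by linarith [hq.2, hi.2]

theorem hasMetricAnalog_P (x₀ : P) : HasMetricAnalog.{0, v} P x₀ :=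
  hasMetricAnalog (fun A _ f hf => lift_of_development (ι := P) G isOpen_G
    (fun k x => ⟨x, mem_G_self k x⟩) G_dev A f hf) x₀

/-- `P` is not quasimetrizable -/
theorem not_quasimetrizable : ¬ Quasimetrizable P := by
  rintro ⟨d, hd0, hdx, hdt, hop⟩
  have hball : ∀ x r, IsOpen {y | d x y < r} := by
    intro x r
    rw [hop]
    intro y hy
    have hy' : d x y < r := hy
    refine ⟨r - d x y, by linarith, fun z hz => ?_⟩
    have hz' : d y z < r - d x y := hz
    show d x z < r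
    have := hdt x y z
    linarith
  -- radii
  have h1 : ∀ x : ℝ, ∃ r > 0, {y | d (pt x) y < 2 * r} ⊆ C x 1 := by
    intro x
    obtain ⟨r, hr, hsub⟩ := (hop _).1 (isOpen_C x one_pos) (pt x) (pt_mem_C _ _)
    refine ⟨r / 2, by positivity, ?_⟩
    have : 2 * (r / 2) = r := by ring
    rw [this]
    exact hsub
  choose r hr hrsub using h1
  have h2 : ∀ x : ℝ, ∃ ε > 0, C x ε ⊆ {y | d (pt x) y < r x} := by
    intro x
    have hmem : pt x ∈ {y | d (pt x) y < r x} := by
      show d (pt x) (pt x) < r x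
      rw [hdx]
      exact hr x
    exact ((isOpen_iff _).1 (hball (pt x) (r x)) (pt x) hmem).1 rfl
  choose e he hesub using h2
  -- Baire category
  let S : ℕ → Set ℝ := fun n => {x | 1 / ((n : ℝ) + 1) < r x ∧ 1 / ((n : ℝ) + 1) < e x}
  have hcov : ⋃ n, closure (S n) = univ := by
    rw [eq_univ_iff_forall]
    intro x
    obtain ⟨n, hn⟩ := exists_nat_one_div_lt (lt_min (hr x) (he x))
    exact mem_iUnion.2 ⟨n, subset_closure ⟨hn.trans_le (min_le_left _ _),
      hn.trans_le (min_le_right _ _)⟩⟩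
  obtain ⟨n, x₁, hx₁⟩ := nonempty_interior_of_iUnion_of_closed (fun n => isClosed_closure) hcov
  obtain ⟨ρ, hρ, hρsub⟩ := Metric.isOpen_iff.1 isOpen_interior x₁ hx₁
  have hdense : ∀ a b : ℝ, x₁ - ρ < a → a < b → b < x₁ + ρ → ∃ x ∈ S n, a < x ∧ x < b := by
    intro a b ha hab hb
    have hmid : (a + b) / 2 ∈ closure (S n) := by
      apply interior_subset
      apply hρsub
      rw [Metric.mem_ball, Real.dist_eq, abs_lt]
      constructor <;> linarith
    obtain ⟨x, hx, hxS⟩ := mem_closure_iff.1 hmid (Ioo a b) isOpen_Ioo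
      ⟨by linarith, by linarith⟩
    exact ⟨x, hxS, hx.1, hx.2⟩
  -- a point off the line
  set v : ℝ := min (1 / ((n : ℝ) + 1)) ρ / 2 with hv
  have hvpos : 0 < v := by positivity
  have hv1 : v < 1 / ((n : ℝ) + 1) := by
    have : min (1 / ((n : ℝ) + 1)) ρ ≤ 1 / ((n : ℝ) + 1) := min_le_left _ _
    have h0 : (0 : ℝ) < 1 / ((n : ℝ) + 1) := by positivity
    rw [hv]
    linarith
  have hv2 : v < ρ := by
    have : min (1 / ((n : ℝ) + 1)) ρ ≤ ρ := min_le_right _ _
    rw [hv]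
    linarith
  let y : P := ⟨(x₁, v), hvpos.le⟩
  have hypos : (0 : ℝ) < 1 / ((n : ℝ) + 1) := by positivity
  have hymem : y ∈ {z | d y z < 1 / ((n : ℝ) + 1)} := by
    show d y y < _
    rw [hdx]
    exact hypos
  obtain ⟨ε, hε, hεsub⟩ := ((isOpen_iff _).1 (hball y (1 / ((n : ℝ) + 1))) y hymem).2 hvpos
  set η : ℝ := min ε v / 2 with hη
  have hηpos : 0 < η := by positivity
  have hη1 : η < ε := by
    have : min ε v ≤ ε := min_le_left _ _
    rw [hη]
    linarith
  have hη2 : η < v := by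
    have : min ε v ≤ v := min_le_right _ _
    rw [hη]
    linarith
  let w : P := ⟨(x₁, v - η), by show 0 ≤ v - η; linarith⟩
  have hw : d y w < 1 / ((n : ℝ) + 1) := by
    apply hεsub
    refine ⟨by show 0 < v - η; linarith, ?_⟩
    show dist ((x₁, v - η) : ℝ × ℝ) (x₁, v) < ε
    rw [Prod.dist_eq, dist_self, Real.dist_eq]
    have : |v - η - v| = η := by
      rw [abs_eq (by positivity)]
      right
      ring
    rw [this]
    exact max_lt hε hη1
  obtain ⟨x, hxS, hx1, hx2⟩ := hdense (x₁ + (v - η)) (x₁ + v) (by linarith) (by linarith)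
    (by linarith)
  have hyC : y ∈ C x (e x) := by
    right
    show |x₁ - x| < v ∧ v < e x
    refine ⟨?_, hv1.trans hxS.2⟩
    rw [abs_lt]
    constructor <;> linarith
  have hd1 : d (pt x) y < r x := hesub x hyC
  have hd2 : d (pt x) w < 2 * r x := by
    have := hdt (pt x) y w
    have := hxS.1
    linarith
  have hwC := hrsub x hd2
  rcases hwC with h | h
  · have h3 : v - η = 0 := congrArg Prod.snd h
    linarith
  · have h3 : |x₁ - x| < v - η := h.1
    have h4 := (abs_lt.1 h3).1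
    linarith

/-- **MP_d44cd8_gt, Q1.** (a) is false and (b) is true: some `T₀` based space has a metric analog
but is not quasimetrizable, and every quasimetrizable `T₀` based space has a metric analog. -/
theorem result :
    (∃ (X : Type) (_ : TopologicalSpace X) (_ : T0Space X) (x₀ : X),
      HasMetricAnalog.{0, v} X x₀ ∧ ¬ Quasimetrizable X) ∧
    (∀ (X : Type u) [TopologicalSpace X] [T0Space X] (x₀ : X),
      Quasimetrizable X → HasMetricAnalog.{u, v} X x₀) :=
  ⟨⟨P, inferInstance, inferInstance, pt 0, hasMetricAnalog_P _, not_quasimetrizable⟩,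
    fun _ _ _ x₀ hX => hasMetricAnalog (fun A _ f hf => lift_of_quasimetrizable hX A f hf) x₀⟩

end Pool.Agent.Results.MP_d44cd8_gt.MetricAnalogVsQuasimetric
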